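import Mathlib
import Pool.Agent.W602.GT.Der

/-!
# Every derivation is a combination of graded derivations on finite sets (core of `GD`)
-/

set_option autoImplicit false

namespace Pool.Agent.Y681.VJ

/-- a derivation vanishing on a set over which the field is algebraic is zero -/
theorem der_zero {k M : Type} [Field k] [CharZero k] [Algebra ℚ k] [AddCommGroup M] [Module k M]
    [Module ℚ M] [IsScalarTower ℚ k M]
    (δ : Derivation ℚ k M) (s : Set k) (hs : ∀ x ∈ s, δ x = 0)
    (halg : Algebra.IsAlgebraic (Algebra.adjoin ℚ s) k) (a : k) : δ a = 0 := by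
  let C : IntermediateField ℚ k :=
    { carrier := {x | δ x = 0}
      mul_mem' := by
        intro x y hx hy
        show δ (x * y) = 0
        have hx' : δ x = 0 := hx
        have hy' : δ y = 0 := hy
        rw [Derivation.leibniz, hx', hy', smul_zero, smul_zero, add_zero]
      add_mem' := by
        intro x y hx hy
        show δ (x + y) = 0
        have hx' : δ x = 0 := hx
        have hy' : δ y = 0 := hy
        rw [map_add, hx', hy', add_zero]
      algebraMap_mem' := by
        intro r
        exact Derivation.map_algebraMap δ r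
      inv_mem' := by
        intro x hx
        show δ (x⁻¹) = 0
        have hx' : δ x = 0 := hx
        rw [Derivation.leibniz_inv, hx', smul_zero] }
  have hC : ∀ x : C, δ (x : k) = 0 := fun x => x.2
  have hle : Algebra.adjoin ℚ s ≤ C.toSubalgebra := Algebra.adjoin_le (fun x hx => hs x hx)
  have h1 : IsAlgebraic C.toSubalgebra a :=
    IsAlgebraic.tower_top_of_subalgebra_le hle (halg.isAlgebraic a)
  have h2 : IsAlgebraic C a := h1
  have h3 : IsIntegral C a := h2.isIntegral
  let D : Derivation C k M := Derivation.mk'
    { toFun := fun x => δ x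
      map_add' := fun x y => map_add δ x y
      map_smul' := by
        intro c x
        show δ (c • x) = c • δ x
        rw [IntermediateField.smul_def, smul_eq_mul, Derivation.leibniz, hC c, smul_zero, add_zero]
        rfl }
    (fun x y => δ.leibniz x y)
  have hD : ∀ x, D x = δ x := fun x => rfl
  have h4 := D.map_aeval (minpoly C a) a
  rw [minpoly.aeval, map_zero] at h4
  have h5 : (minpoly C a).Separable := (minpoly.irreducible h3).separable
  have h6 : Polynomial.aeval a (Polynomial.derivative (minpoly C a)) ≠ 0 :=
    h5.aeval_derivative_ne_zero (minpoly.aeval _ _)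
  rcases smul_eq_zero.1 h4.symm with h7 | h7
  · exact absurd h7 h6
  · exact h7

/-- extension of a derivation with given logarithmic derivatives of independent elements -/
theorem exists_ext {G k : Type} [Field G] [CharZero G] [Algebra ℚ G] [Field k] [CharZero k]
    [Algebra ℚ k] [Algebra k G] [IsScalarTower ℚ k G] {m : ℕ} (g : Fin m → G)
    (hg : AlgebraicIndependent k g) (d : Derivation ℚ k k) (c : Fin m → G) :
    ∃ E : Derivation ℚ G G, (∀ a : k, E (algebraMap k G a) = algebraMap k G (d a)) ∧
      ∀ i, E (g i) = c i := by
  classical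
  obtain ⟨s, hs⟩ := exists_isTranscendenceBasis ℚ k
  have h1 : AlgebraicIndependent ℚ (Sum.elim g (algebraMap k G ∘ ((↑) : s → k))) :=
    hs.1.sumElim_comp hg
  obtain ⟨v, hv, hvb⟩ := exists_isTranscendenceBasis_superset h1.to_subtype_range
  have hinj : Function.Injective (Sum.elim g (algebraMap k G ∘ ((↑) : s → k))) := h1.injective
  obtain ⟨E, hE⟩ := Pool.Agent.W602.GT.exists_der (fun x : v => (x : G)) hvb
    (fun x => if h : ∃ i, Sum.elim g (algebraMap k G ∘ ((↑) : s → k)) i = x then
      Sum.elim c (fun y : s => algebraMap k G (d y)) h.choose else 0)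
  have hval : ∀ i, E (Sum.elim g (algebraMap k G ∘ ((↑) : s → k)) i) =
      Sum.elim c (fun y : s => algebraMap k G (d y)) i := by
    intro i
    have h2 := hE ⟨Sum.elim g (algebraMap k G ∘ ((↑) : s → k)) i, hv ⟨i, rfl⟩⟩
    simp only at h2
    have hex : ∃ j, Sum.elim g (algebraMap k G ∘ ((↑) : s → k)) j =
        Sum.elim g (algebraMap k G ∘ ((↑) : s → k)) i := ⟨i, rfl⟩
    rw [dif_pos hex, hinj hex.choose_spec] at h2
    exact h2
  refine ⟨E, ?_, fun i => hval (Sum.inl i)⟩
  intro a
  -- the difference is a derivation from k to G
  let δ : Derivation ℚ k G := Derivation.mk'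
    { toFun := fun x => E (algebraMap k G x) - algebraMap k G (d x)
      map_add' := by
        intro x y
        rw [map_add, map_add, map_add, map_add]; ring
      map_smul' := by
        intro c x
        rw [Algebra.smul_def, map_mul, RingHom.id_apply, Algebra.smul_def]
        rw [← IsScalarTower.algebraMap_apply ℚ k G, Derivation.leibniz, Derivation.leibniz,
          Derivation.map_algebraMap, Derivation.map_algebraMap, smul_zero, smul_zero, add_zero,
          add_zero, smul_eq_mul, smul_eq_mul, map_mul, ← IsScalarTower.algebraMap_apply ℚ k G]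
        ring }
    (by
      intro x y
      show E (algebraMap k G (x * y)) - algebraMap k G (d (x * y)) =
        x • (E (algebraMap k G y) - algebraMap k G (d y)) +
        y • (E (algebraMap k G x) - algebraMap k G (d x))
      rw [map_mul, Derivation.leibniz, Derivation.leibniz, map_add, smul_eq_mul, smul_eq_mul,
        smul_eq_mul, smul_eq_mul, map_mul, map_mul, Algebra.smul_def, Algebra.smul_def]
      ring)
  have hδ : δ a = 0 := by
    refine der_zero δ s ?_ ?_ a
    · intro x hx
      show E (algebraMap k G x) - algebraMap k G (d x) = 0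
      have h3 := hval (Sum.inr ⟨x, hx⟩)
      have h4 : E (algebraMap k G x) = algebraMap k G (d x) := h3
      rw [h4, sub_self]
    · have h5 := hs.isAlgebraic
      rwa [Subtype.range_coe] at h5
  exact sub_eq_zero.1 hδ

/-- a derivation which preserves the small field `k` and multiplies every `g i` by an element of
it -/
def Graded {G : Type} (k : Type) [Field G] [Algebra ℚ G] [Field k] [Algebra k G] {m : ℕ}
    (g : Fin m → G) (E : Derivation ℚ G G) : Prop :=
  (∀ a : k, ∃ b : k, E (algebraMap k G a) = algebraMap k G b) ∧
    ∀ i, ∃ b : k, E (g i) = algebraMap k G b * g i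

theorem gd_core (G k : Type) [Field G] [CharZero G] [Algebra ℚ G] [Field k] [Algebra k G] (m : ℕ)
    (g : Fin m → G) (hg : AlgebraicIndependent k g) (D : Derivation ℚ G G) (Y : Finset k) :
    ∃ (ι : Type) (T : Finset ι) (e : ι → G) (E : ι → Derivation ℚ G G),
      (∀ j, Graded k g (E j)) ∧
      (∀ y ∈ Y, D (algebraMap k G y) = ∑ j ∈ T, e j * E j (algebraMap k G y)) ∧
      ∀ i, D (g i) = ∑ j ∈ T, e j * E j (g i) := by
  classical
  have hchar : CharZero k := (algebraMap k G).charZero
  let _ : Algebra ℚ k := DivisionRing.toRatAlgebra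
  have htow : IsScalarTower ℚ k G := IsScalarTower.of_algebraMap_eq' (Subsingleton.elim _ _)
  let B := Module.Basis.ofVectorSpace k G
  let d : Module.Basis.ofVectorSpaceIndex k G → Derivation ℚ k k := fun j => Derivation.mk'
    { toFun := fun a => B.repr (D (algebraMap k G a)) j
      map_add' := by
        intro x y
        rw [map_add, map_add, map_add, Finsupp.add_apply]
      map_smul' := by
        intro c x
        rw [Algebra.smul_def, map_mul, RingHom.id_apply, Algebra.smul_def,
          ← IsScalarTower.algebraMap_apply ℚ k G, Derivation.leibniz, Derivation.map_algebraMap,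
          smul_zero, add_zero, IsScalarTower.algebraMap_apply ℚ k G, smul_eq_mul,
          ← Algebra.smul_def, map_smul, Finsupp.smul_apply, smul_eq_mul] }
    (by
      intro x y
      show B.repr (D (algebraMap k G (x * y))) j = x • B.repr (D (algebraMap k G y)) j +
        y • B.repr (D (algebraMap k G x)) j
      rw [map_mul, Derivation.leibniz, smul_eq_mul, smul_eq_mul, ← Algebra.smul_def,
        ← Algebra.smul_def, map_add, map_smul, map_smul, Finsupp.add_apply, Finsupp.smul_apply,
        Finsupp.smul_apply])
  have hext : ∀ j, ∃ E : Derivation ℚ G G,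
      (∀ a : k, E (algebraMap k G a) = algebraMap k G (d j a)) ∧
      ∀ i, E (g i) = algebraMap k G (B.repr (D (g i) / g i) j) * g i :=
    fun j => exists_ext g hg (d j) _
  choose E hE1 hE2 using hext
  have hg0 : ∀ i, g i ≠ 0 := fun i => hg.ne_zero i
  let T : Finset (Module.Basis.ofVectorSpaceIndex k G) :=
    (Y.biUnion fun y => (B.repr (D (algebraMap k G y))).support) ∪
      (Finset.univ.biUnion fun i => (B.repr (D (g i) / g i)).support)
  have hexp : ∀ x : G, (B.repr x).support ⊆ T → x = ∑ j ∈ T, B j * algebraMap k G (B.repr x j) := by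
    intro x hx
    conv_lhs => rw [← B.linearCombination_repr x, Finsupp.linearCombination_apply,
      Finsupp.sum_of_support_subset _ hx _ (by intro i _; rw [zero_smul])]
    apply Finset.sum_congr rfl
    intro j _
    rw [Algebra.smul_def, mul_comm]
  refine ⟨_, T, fun j => B j, E, ?_, ?_, ?_⟩
  · intro j
    exact ⟨fun a => ⟨_, hE1 j a⟩, fun i => ⟨_, hE2 j i⟩⟩
  · intro y hy
    have h1 := hexp (D (algebraMap k G y)) (by
      intro j hj
      exact Finset.mem_union_left _ (Finset.mem_biUnion.mpr ⟨y, hy, hj⟩))
    rw [h1]
    apply Finset.sum_congr rfl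
    intro j _
    rw [hE1]
    rfl
  · intro i
    have h1 := hexp (D (g i) / g i) (by
      intro j hj
      exact Finset.mem_union_right _ (Finset.mem_biUnion.mpr ⟨i, Finset.mem_univ _, hj⟩))
    have h2 : D (g i) = (D (g i) / g i) * g i := (div_mul_cancel₀ _ (hg0 i)).symm
    rw [h2]
    conv_lhs => rw [h1]
    rw [Finset.sum_mul]
    apply Finset.sum_congr rfl
    intro j _
    rw [hE2, mul_assoc]

end Pool.Agent.Y681.VJ
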